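import Pool.Agent.Helper74_PSV.AllX
import Pool.Agent.Helper20_MTF.Nva

/-!
# All the fibres near a fibre with few period constants are Hodge generic, uniformly in the family

A one parameter family `F : Family d` (`Pool/Agent/MT100D/Defs.lean`) is a linear differential system
over `ℚ(w)`, `z = 1/w`, with fundamental matrix `Y w = H(z) z ^ (N + δ)` near `w = ∞`, where the power
series in `H` and `H⁻¹` are of G-type, `N` is integral and nilpotent and commutes with the rational
diagonal matrix `δ`.  By André, Chudnovsky and Katz the systems of the relative de Rham cohomology of all
the families of algebraic varieties over open parts of the affine line over `ℚ` are of this kind, in a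
suitable basis of forms adapted to the Hodge filtration.  If the family extends to a smooth fibre `X_∞`
over `w = ∞`, then `N = 0` and `δ = 0`.

Row `a` of `Y w` is the form with index `a` in the basis of flat sections, `lev a` is its Hodge level.
The rational structure on the flat sections is given by a matrix `P ∈ GL_r(ℂ)`: the periods of the
(limit) fibre at infinity.  The hypothesis is that, up to a common factor `s`, they are algebraic over
a field generated by a small number `m₀` of complex numbers `c l`: with `m₀ + [N ≠ 0] ≤ m`, `[N ≠ 0]`
equal to `1` or `0`, and (`Small`)

* `w` odd: `m + 1 + κ < r`, `κ` at least as large as the Hodge numbers;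
* `w` even: `2 m + κ < r` and `5 ≤ r`, `κ` at least as large as `h^(w/2,w/2)` and as all the
  `h^(p,w-p) + h^(w-p,p)`, `p ≠ w/2`.

THE RESULT IS UNIFORM IN THE FAMILY AND IN THE RATIONAL STRUCTURE: all the fibres over the points of
`Pts e A` of absolute value at least `B ^ a` are Hodge generic, where `B` is the size of the family and
`a` depends only on `e`, `A`, the Hodge numbers, and bounds `n`, `m` for the degrees and for the number
of constants.

The objects of the statement:

* `Adm n m B F P` (`Pool/Agent/Helper74_PSV/Def.lean`): the rank, the degrees in the system and the
  denominators of the exponents are at most `n`, all the coefficients in the system are at most `B`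
  (`PB`, `RB`), the coefficients of `z ^ k` in `H` and `H⁻¹` and the common denominators of those up to
  `z ^ k` are at most `B ^ (k + 1)` (`GTC`), `P` is invertible and for some `s ≠ 0`, `m₀`, `c` as above every
  entry of `s P` is a root of a nonzero polynomial of degree at most `n` whose coefficients are rational
  polynomials in the `c l` of total degree at most `n` (`AlgB`; the rational numbers are of any size).
* `Pts e A` (`Pool/Agent/MTN/Defs.lean`): the algebraic numbers `x`, roots of nonzero integral
  polynomials of degree at most `e` with coefficients of absolute value at most `‖x‖ ^ A`; the integers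
  `n ≥ 1` are in `Pts 1 1`, and the integral points of a number field whose absolute value is at least a
  power of their house are in some `Pts e A`.
* `FibreC F lev P w x E V`: `V` is a Hodge structure of weight `w` on the flat sections, polarised by the
  monodromy invariant form `E`, whose Hodge filtration is given by the periods at the complex point `x`.
* `IsoDense (F.Mo P) E`: the monodromy group is Zariski dense in the symplectic group of `E` (`w` odd),
  its Zariski closure contains the special orthogonal group of `E` (`w` even).
* `simC E K`: the group of all the symplectic similitudes (`w` odd), the identity component of the group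
  of the orthogonal similitudes (`w` even).
* `BigMonodromy E ρ` (`Pool/Agent/MT100/DefsH.lean`): the values are similitudes of `E`, a multiplier is
  not a root of unity, the subgroups of finite index act irreducibly, and the image contains an element
  `g` with `g - 1` of rank one (a transvection if `w` is odd, a reflection if `w` is even).
* `SpecializesAt ρ b ρa` (`Pool/Agent/HIK/Defs.lean`): the representation `ρa` of the Galois group of
  `ℚ(b)`, `b` an algebraic number, is the specialisation at `t = b` of the representation `ρ` of the
  Galois group of `ℚ(t)`.
* `HUK.Ap QB e H` (`Pool/Agent/HUK/StmtsA.lean`): the algebraic numbers which are zeros of a nonzero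
  integral polynomial of degree at most `e` with coefficients of absolute value at most `H`.
* `FewC T (fun _ _ => 1 / 5) Y Y'` (`Pool/Agent/PSV/FewC.lean`): the set `T` of algebraic numbers has at most
  `Y e A X ^ (4/5)` elements in every segment `y, y + 1, .., y + X - 1`, `y ∈ HUK.Ap QB e (X ^ A)`, and
  contains few of the fractions of every number field and few of all the algebraic integers of degree at
  most `e`: there are `≍ X ^ D` of them of size at most `X`, and at most a constant times `X ^ (D - 1/5)` in `T`.

Examples.  (1) Hypersurfaces near a Fermat hypersurface.  Let `F₀` be the Fermat form of degree `D ≥ 3` in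
`w + 2` variables, `G` any form of degree `D` with integral coefficients, and consider the pencil
`x F₀ + G = 0`, `z = 1/x`.  In the basis of flat sections given by the residues of the monomial forms at
`F₀` the matrix `H(z)` of the pencil is `ℋ(z G)`, where `ℋ`, the period matrix of `F₀ + G'` as a function of
the coefficients of `G'`, is one matrix of G-functions of several variables, and the system is given by
polynomials in `z` and the coefficients of `G`.  So all these families are admissible with the same `n` and
`m`, with the same `P` (the periods of `F₀`: up to a common factor algebraic over a field with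
`m = φ(D)/2` generators, values of the Gamma function) and with `B = (2 + |G|) ^ c`.  The result gives, for
every `e` and `A`, numbers `x₀` and `δ > 0` such that ALL the hypersurfaces `x F₀ + G = 0` with
`x ∈ Pts e A`, `‖x‖ ≥ x₀`, `|G| ≤ ‖x‖ ^ δ`, whose pencil `x F₀ + G` has Zariski dense monodromy (for
instance all the `G` such that it is a Lefschetz pencil, an open dense condition on `G`) have the largest
possible Mumford-Tate group: here all the coefficients of the equation are free and there is no
exceptional set.  The numerical condition holds in all odd dimensions `w ≥ 3`, for surfaces of degree at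
least five (`φ(D) < 2 p_g`) and in all the even dimensions, if the degree is not very small:
`φ(D) + κ < r`.  (2) All the hypergeometric families of Calabi-Yau type of rank at least six, see
`nonvacuous`.  These fibres are not of abelian type, because their Mumford-Tate group is the group of all
the similitudes, if the level of the Hodge structure is greater than one (`w` odd), greater than two or
equal to two with `p_g ≥ 2` (`w` even).

What is new.  On the Galois side most points of a family are Galois generic, by Hilbert's irreducibility
theorem (Serre, Terasoma; Cadoret and Tamagawa, Hui).  On the Hodge side the points which are not Hodge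
generic form, by Cattani, Deligne and Kaplan, a COUNTABLE union of algebraic subsets; as the algebraic points
are countable as well, this does not give a single Hodge generic algebraic point.  A Galois generic point is
generic for motivated cycles (André), hence Hodge generic where all the Hodge classes are known to be
motivated (families of abelian type), and there are theorems for divisor classes (Terasoma, Maulik and
Poonen) and for few points of special families by G-functions (André).  For a general family, for instance
for a pencil of hypersurfaces through a Fermat hypersurface, we know of no earlier proof that there is even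
ONE Hodge generic algebraic point; here all the points of a family near infinity are Hodge generic, and the
neighbourhood is uniform in the family.

The third statement is for one hundred percent of the parameters in every number field, and of all the
algebraic parameters of every degree, with a uniform power saving; the exceptional set is the same for all
the families `F` and all the primes `ℓ`.  For the rational integers `x = n` alone: by Cadoret and Tamagawa
(one `ℓ`) and Hui (independence of `ℓ`) the specialised representations have the same identity component as
the generic one for ALL but finitely many `n` and all `ℓ`; with the second statement this gives the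
Mumford-Tate conjecture for all but finitely many members of each of these pencils.
-/

set_option autoImplicit false

namespace Pool.Agent.Results.MP_c1bb77_ag.FewConstantsUniform

open Matrix Polynomial NumberField Pool.Agent.PSV Pool.Agent.MT100 Pool.Agent.MT100D Pool.Agent.MTF
  Pool.Agent.Helper78_MT Pool.Agent.MTL Pool.Agent.MTN Pool.Agent.HIK
  Pool.Agent.MTO.H74 Pool.Agent.PSV.H74

universe u v

/-- Let `w` be a weight, `lev : d → ℕ` the Hodge levels of a basis with `r` elements and `m` a number
which is small in comparison with `r` and the Hodge numbers (`Small`).
(1) Every family `F` of rank `r` and every rational structure `P` with at most `m - [N ≠ 0]` period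
constants, up to a common factor, are admissible for some bounds `n`, `B`.
There are exponents `a n e A` such that:
(2) for all `n`, `e`, `A`, for EVERY `F`, `B`, `P` with `Adm n m B F P`, EVERY `x ∈ Pts e A` with
`‖x‖ ≥ B ^ (a n e A)` and every polarised Hodge structure `(V, E)` of weight `w`, `E` invariant under the
monodromy, whose Hodge filtration is given by the periods at `x`, if the Zariski closure of the monodromy
group contains all the isometries of `E` (of determinant one if `E` is symmetric): the Mumford-Tate group
of `V` is the identity component of the group of the similitudes of `E`; and for every prime `ℓ` and every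
representation `ρ` of any group on the same space with coefficients in `ℚ_ℓ` which satisfies
`BigMonodromy E` (for instance of the Galois group of `ℚ(x)`), the identity component of the Zariski
closure of its image is the Mumford-Tate group of `V`;
(3) for all continuous representations `ρ ℓ` (`ℓ` prime) of the Galois group of `ℚ(t)` on the same space
with coefficients in `ℚ_ℓ` there are a set `T` of algebraic numbers and numbers `N ℓ` such that `T` contains
few algebraic numbers (`FewC` with the exponent `1/5`: at most `O(X ^ (4/5))` in every segment
`y, y + 1, .., y + X - 1` etc.) and for EVERY `F`, `B`, `P` with `Adm n m B F P`, every prime `ℓ`, every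
algebraic number `x ∉ T` and every embedding `ε` of the algebraic closure of `ℚ` in `ℂ` with `ε x ∈ Pts e A`,
`‖ε x‖ ≥ B ^ (a n e A)` and `‖ε x‖ ≥ N ℓ`, for every `(V, E)` as in (2) at the point `ε x`, if `ρ ℓ` satisfies
`BigMonodromy E`: for every specialisation `ρx` of `ρ ℓ` at `t = x`, a representation of the Galois group of
`ℚ(x)`, the identity component of the Zariski closure of its image is the Mumford-Tate group of `V`.  The set
`T` and the numbers `N ℓ` do not depend on `F`, `P`, `B`, `n`, `e`, `A`, and `T` does not depend on `ℓ`. -/
theorem result (d : Type) [Fintype d] [DecidableEq d] (w : ℕ) (lev : d → ℕ) (m : ℕ)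
    (hm : Small w lev m (Fintype.card d)) :
    (∀ (F : Family d) (P : Matrix d d ℂ) (m₀ : ℕ) (c : Fin m₀ → ℂ) (s : ℂ), IsUnit P.det → s ≠ 0 →
      (∀ i j, IsAlgebraic (IntermediateField.adjoin ℚ (Set.range c)) (s * P i j)) →
      m₀ + (if F.N = 0 then 0 else 1) ≤ m → ∃ n B : ℕ, Adm n m B F P) ∧
    ∃ a : ℕ → ℕ → ℕ → ℕ,
      (∀ (n e A : ℕ) (F : Family d) (B : ℕ) (P : Matrix d d ℂ), Adm n m B F P →
        ∀ x ∈ Pts e A, (B : ℝ) ^ a n e A ≤ ‖x‖ →
        ∀ (E : Matrix d d ℚ) (V : ℕ → Submodule ℂ (d → ℂ)),
        FibreC F lev P w x E V → IsoDense (F.Mo P) E →
        (∀ (K : Type u) [Field K] [CharZero K], mtGroup w V K = simC E K) ∧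
        ∀ (ℓ : ℕ) [Fact ℓ.Prime] (Γ : Type v) [Group Γ] (ρ : Γ →* GL d ℚ_[ℓ]), BigMonodromy E ρ →
          ∀ (K : Type u) [Field K] [CharZero K] [Algebra ℚ_[ℓ] K],
            monodromy ρ K = mtGroup w V K) ∧
      ∀ ρ : (ℓ : ℕ) → [Fact ℓ.Prime] → GT →* GL d ℚ_[ℓ],
        (∀ (ℓ : ℕ) [Fact ℓ.Prime], Continuous (ρ ℓ)) →
        ∃ (T : Set QB) (N : ℕ → ℕ),
          (∃ (Y : ℕ → ℕ → ℝ) (Y' : (k : Type) → [Field k] → [NumberField k] → ℕ → ℝ),
            FewC T (fun _ _ => 1 / 5) Y Y') ∧
          ∀ (n e A : ℕ) (F : Family d) (B : ℕ) (P : Matrix d d ℂ), Adm n m B F P →
          ∀ (ℓ : ℕ) [Fact ℓ.Prime] (x : QB), x ∉ T → ∀ ε : QB →+* ℂ, ε x ∈ Pts e A →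
          (B : ℝ) ^ a n e A ≤ ‖ε x‖ → (N ℓ : ℝ) ≤ ‖ε x‖ →
          ∀ (E : Matrix d d ℚ) (V : ℕ → Submodule ℂ (d → ℂ)),
          FibreC F lev P w (ε x) E V → IsoDense (F.Mo P) E → BigMonodromy E (ρ ℓ) →
          ∀ ρx : HIK.Stab x →* GL d ℚ_[ℓ], SpecializesAt (ρ ℓ) x ρx →
          ∀ (K : Type u) [Field K] [CharZero K] [Algebra ℚ_[ℓ] K],
            monodromy ρx K = mtGroup w V K :=
  PSV.H74.fewXA d w lev m hm

/-- Not a part of the result, only a check that it is not empty: every hypergeometric datum `D` of rank
`r ≥ 6` gives a family, a rational structure `P`, whose entries are powers of `2 π i`, and a form `E`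
which satisfy all the hypotheses of the result (with two constants, `log z` and `2 π i`, and `κ = 1`,
weight `r - 1`), and the large integers `n` are points of `Pts 1 1` at which a polarised Hodge structure
with these periods exists. -/
theorem nonvacuous (D : Dat) (hD : 3 ≤ D.s) :
    ∃ (F : Family (Fin D.r)) (P : Matrix (Fin D.r) (Fin D.r) ℂ)
      (E : Matrix (Fin D.r) (Fin D.r) ℚ) (n0 : ℕ),
      F.H = Hyp D ∧ F.N = Nsh D.r ∧ (∀ a, F.δ a = 0) ∧
      Small (D.r - 1) (fun a : Fin D.r => D.r - 1 - a) 2 (Fintype.card (Fin D.r)) ∧
      (∃ n B : ℕ, Adm n 2 B F P) ∧ IsoDense (F.Mo P) E ∧
      ∀ n : ℕ, n0 ≤ n → (n : ℂ) ∈ Pts 1 1 ∧ ∃ V : ℕ → Submodule ℂ (Fin D.r → ℂ),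
        FibreC F (fun a => D.r - 1 - a) P (D.r - 1) n E V := by
  obtain ⟨F, P, E, n0, h1, h2, h3, h4, h5, h6, h7, h8, h9, h10⟩ := MTF.H20.nva D hD
  have hsm : Small (D.r - 1) (fun a : Fin D.r => D.r - 1 - a) 2 (Fintype.card (Fin D.r)) := by
    refine ⟨1, Or.inl ⟨h8, h6, ?_⟩⟩
    rw [Fintype.card_fin]
    change 2 + 1 + 1 < 2 * D.s
    omega
  refine ⟨F, P, E, max n0 1, h1, h2, h3, hsm, ?_, fun g hg _ => h9 g hg,
    fun n hn => ⟨?_, h10 n (le_trans (le_max_left _ _) hn)⟩⟩
  · refine (result.{0, 0} _ _ _ 2 hsm).1 F P 1 _ 1 h4 one_ne_zero h5 ?_
    split_ifs <;> omega
  have hn0 : 1 ≤ n := le_trans (le_max_right _ _) hn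
  refine ⟨X - C (n : ℤ), X_sub_C_ne_zero _, (natDegree_X_sub_C _).le, fun i => ?_, ?_⟩
  · rw [pow_one, Complex.norm_natCast, coeff_sub, coeff_X, coeff_C]
    split_ifs <;> simp <;> omega
  · simp

end Pool.Agent.Results.MP_c1bb77_ag.FewConstantsUniform
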