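import Pool.Agent.Helper88_PSV.AllZ

/-!
# Almost all algebraic numbers are Hodge generic in EVERY one parameter family, uniformly in the family,
and the Mumford-Tate conjecture holds there as soon as it holds for the generic fibre

A one parameter family `F : Family d` (`Pool/Agent/MT100D/Defs.lean`) is a linear differential system
over `ℚ(w)`, `z = 1/w`, with fundamental matrix `Y w = H(z) z ^ (N + δ)` near `w = ∞`, where the power
series in `H` and `K = H⁻¹` are of G-type, `N` is nilpotent and commutes with the rational diagonal matrix
`δ`.  By André, Chudnovsky and Katz the systems of the relative de Rham cohomology of ALL the families of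
algebraic varieties over open parts of the affine line over `ℚ` are of this kind, in a suitable basis of
forms adapted to the Hodge filtration.  A family over a curve over a number field (with a finite map to
the line) gives one of these by direct image.  THERE IS NO CONDITION ON THE MONODROMY GROUP
`F.mo Set.univ` (all matrices obtained from `Y` by analytic continuation along closed chains of discs) AND
NO CONDITION AT INFINITY.

`Siz n B F.H F.K F.N F.δ F.q F.B` (`Pool/Agent/PSV/Defs.lean`): the rank and the degrees of the
coefficients of the system are at most `n`; the coefficients, the entries of `N`, the numerators and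
denominators of `δ` and the constants of the G-type of `H` and `H⁻¹` (coefficients and common denominators at
most `B ^ (k + 1)`) are at most `B`.  Every family has a size.  The theorem is uniform in all the families
with the same `n`, polynomially in `B`.

Row `a` of `Y w` is the form with index `a` in the basis of flat sections.  The rational structure on the
flat sections is given by any matrix `P ∈ GL_r(ℂ)` for which the monodromy group is integral
(`F.IntM P`); `F.per P x a` is the vector of the periods of the form with index `a` at the complex
point `x` (principal branch of the logarithm).

* `Pts m A` (`Pool/Agent/MTN/Defs.lean`): the algebraic numbers `x`, roots of nonzero integral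
  polynomials of degree at most `m` with coefficients of absolute value at most `‖x‖ ^ A`; all the
  algebraic numbers of degree at most `m` whose absolute value is not small compared to their height.
* `FewC Y δ Z Z'` (`Pool/Agent/PSV/FewC.lean`): the set `Y` contains few algebraic numbers: for all `m`, `A`
  and `X ≥ 1`
  (seg) at most `Z m A X ^ (1 - δ m A)` of the numbers `x, x + 1, .., x + X - 1`, for every algebraic number `x`
  of degree at most `m` and height at most `X ^ A`;
  (frc) for every number field `k` of degree `m` and every embedding at most
  `Z' k A X ^ (m + A (m + 1) - δ m A)` of the `≍ X ^ (m + A (m + 1))` fractions `a / b`, `a` in the ring of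
  integers of `k`, `1 ≤ b ≤ X ^ A`, all whose conjugates have absolute value at most `X` (for `A = 0`: the
  elements of the ring of integers);
  (alg) at most `Z m 0 X ^ (m (m + 1) / 2 - δ m 0)` of the `≍ X ^ (m (m + 1) / 2)` algebraic integers of
  degree at most `m` all whose conjugates have absolute value at most `X`.
* `FibreC F lev P w x E V`: `V` is a Hodge structure of weight `w` on the flat sections, polarised by the
  monodromy invariant form `E`, whose Hodge filtration is given by the periods at the complex point `x`.
* `Uni (F.Mo P)`: the elements of the unipotent one parameter subgroups of the Zariski closure of the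
  monodromy group.  By Deligne they generate its identity component if the family is geometric and
  polarised.
* `GenM (F.Mo P) w V K`: the smallest algebraic group over `ℚ` which contains the Deligne torus of `V` and
  `Uni (F.Mo P)`.
* `FixedC F lev P w R`: the theorem of the fixed part (Griffiths, Deligne, Schmid), for the points `x` with
  `‖x‖ > R`: a rational tensor which is invariant under `Uni (F.Mo P)` and is a Hodge tensor at one of
  these points is a Hodge tensor at all of them.  It is a hypothesis of the statements on other points
  only.
* `SpecializesAt ρ x ρx` (`Pool/Agent/HIK/Defs.lean`): the representation `ρx` of the Galois group of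
  `ℚ(x)`, `x` an algebraic number, is the specialisation at `t = x` of the representation `ρ` of the
  Galois group of `ℚ(t)`.

Context.  Galois side: by Hilbert's irreducibility theorem (Serre, Terasoma; Cadoret-Tamagawa and Hui for
much more precise statements over curves) most points of a family are Galois generic.  Hodge side: by
Cattani, Deligne and Kaplan the points which are not Hodge generic form a COUNTABLE union of algebraic
subsets; as the algebraic points are countable as well, this does not give a single Hodge generic
algebraic point.  A Galois generic point is generic for motivated cycles (André), hence Hodge generic where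
all the Hodge classes are known to be motivated or absolute (families of abelian type), and there are
theorems for divisor classes (Terasoma, Maulik-Poonen) and for few points of special families by
G-functions (André).  For a general family, for instance a pencil of hypersurfaces of high dimension and
degree, we know of no earlier proof that there is even ONE Hodge generic algebraic point; here these are
one hundred percent of the points, with a power saving which is uniform in the family.

The method.  Hodge side: a lower bound for the rank of the values of G-functions at algebraic points, of
the quality `η · (number of functions)` only, is applied to all the products of high degree of the functions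
at several translates; as the Hilbert function of the relations grows on varieties of smaller dimension
with a smaller exponent, a constant `η > 0` is as good as `η = 1`, and all the relations at the algebraic
point persist under the monodromy group.  Galois side: Hilbert's irreducibility theorem with a power
saving in the segments `x, x + 1, .., x + X - 1`, uniformly over all algebraic numbers `x` of degree at most
`m` (determinant method), for the finite quotients of the image of the geometric fundamental group.

Several parameters: let `F_g`, `g ∈ ℤ ^ M`, be families whose sizes `B_g` grow at most like a power of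
`|g|`, for instance the pencils `x F₀ + G` of hypersurfaces through a fixed one, ALL the coefficients of
`G` free.  Summing the bounds for `S` over `|g| ≤ Y` one gets at most `C Y ^ e X ^ (m - δ)` exceptional pairs
`(x, g)`, `x` in the ring of integers of `k`, with `house x ≤ X`, `|g| ≤ Y`: if `Y ≤ X ^ ε` one hundred percent
of these hypersurfaces are Hodge generic.
-/

set_option autoImplicit false

namespace Pool.Agent.Results.MP_c1bb77_ag.HodgeGenericPoints

open Matrix Polynomial NumberField Pool.Agent.MT100 Pool.Agent.MT100G Pool.Agent.MT100A
  Pool.Agent.MT100D Pool.Agent.Helper78_MT Pool.Agent.MTL Pool.Agent.MTN Pool.Agent.HIK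
  Pool.Agent.PSV Pool.Agent.PSV.H88

universe u

/-- Every family has a size `(n, B)`.  For every `n` there are `c`, `a m A`, `δ m A > 0` and constants
`Z m A`, `Z' k A` such that for every one parameter family `F` of size `(n, B)`, every weight `w ≥ 1`, all
levels `lev a` of the forms and every rational structure `P` for which the monodromy is integral there
is a set `S` of complex numbers such that:
(0) for all `m`, `A`, `K` and every `x ∈ Pts m A` with `‖x‖ ≥ (B (K + 1)) ^ a m A` at most `B ^ c` of the
numbers `x, x - 1, ..., x - (K - 1)` are in `S`, and `FewC S δ (Z B ^ c) (Z' B ^ c)`;
(1) for every `x ∉ S` and every polarised Hodge structure `(V, E)` of weight `w`, `E` invariant under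
the monodromy, whose Hodge filtration is given by the periods at `x`:
(1a) the Mumford-Tate group of `V` is the smallest algebraic group over `ℚ` which contains the Deligne
torus and the unipotent one parameter subgroups of the closure of the monodromy group;
(1b) if the theorem of the fixed part holds for the points of absolute value larger than `R`
(`R ≥ B ^ c`, `‖x‖ > R`), then the Mumford-Tate group of `V` contains the Mumford-Tate group of every
polarised Hodge structure `V'` whose Hodge filtration is given by the periods at some `y` with `‖y‖ > R`:
the point `x` is Hodge generic;
(2) for all continuous representations `ρ ℓ` (`ℓ` prime) of the Galois group of `ℚ(t)` on the same space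
with coefficients in `ℚ_ℓ` there are ONE set `T` of algebraic numbers, `FewC T (1/5)` (with some
constants), and numbers `N ℓ` such that for every prime `ℓ`, every algebraic number `x ∉ T` which has a
conjugate of absolute value at least `N ℓ`, and every specialisation `ρx` of `ρ ℓ` at `t = x` (a
representation of the Galois group of `ℚ(x)`):
(2a) the identity component of the Zariski closure of the image of `ρx` is that of `ρ ℓ`;
(2b) for every embedding `e` of the algebraic closure of `ℚ` in `ℂ` with `e x ∉ S` and every `(V, E)`
as in (1) at the point `e x`: the group of (2a) is the Mumford-Tate group of `V` if and only if the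
identity component of the Zariski closure of the image of `ρ ℓ` is `GenM (F.Mo P) w V`;
(2c) if the theorem of the fixed part holds, as in (1b), the group of (2a) is the Mumford-Tate group of
`V` if and only if the identity component of the Zariski closure of the image of `ρ ℓ` is the
Mumford-Tate group of `V'`, for any one `(V', E')` as in (1) at any point `y ∉ S`, `‖y‖ > R`.  So the
Mumford-Tate conjecture holds for one hundred percent of the algebraic integers (over every number
field, and for all of them together), or for zero percent. -/
theorem result :
    (∀ (d : Type) [Fintype d] [DecidableEq d] (F : Family d), ∃ n B : ℕ,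
      Siz n B F.H F.K F.N F.δ F.q F.B) ∧
    ∀ n : ℕ, ∃ (c : ℕ) (a : ℕ → ℕ → ℕ) (δ Z : ℕ → ℕ → ℝ)
      (Z' : (k : Type) → [Field k] → [NumberField k] → ℕ → ℝ), (∀ m A, 0 < δ m A) ∧
      ∀ (d : Type) [Fintype d] [DecidableEq d] (F : Family d) (B : ℕ),
      Siz n B F.H F.K F.N F.δ F.q F.B →
      ∀ (w : ℕ) (lev : d → ℕ), 1 ≤ w → ∀ P : Matrix d d ℂ, IsUnit P.det → F.IntM P →
        ∃ S : Set ℂ,
          (∀ (m A K : ℕ), ∀ x ∈ Pts m A, ((B * (K + 1) : ℕ) : ℝ) ^ a m A ≤ ‖x‖ →
            Nat.card {κ : ℕ // κ < K ∧ x - κ ∈ S} ≤ B ^ c) ∧
          FewC S δ (fun m A => Z m A * (B : ℝ) ^ c) (fun k _ _ A => Z' k A * (B : ℝ) ^ c) ∧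
          (∀ x : ℂ, x ∉ S → ∀ (E : Matrix d d ℚ) (V : ℕ → Submodule ℂ (d → ℂ)),
            FibreC F lev P w x E V →
            (∀ (K : Type u) [Field K] [CharZero K], mtGroup w V K = GenM (F.Mo P) w V K) ∧
            ∀ R : ℝ, (B : ℝ) ^ c ≤ R → R < ‖x‖ → FixedC F lev P w R →
              ∀ y : ℂ, R < ‖y‖ → ∀ (E' : Matrix d d ℚ) (V' : ℕ → Submodule ℂ (d → ℂ)),
              PolHodge w E' V' → F.HasFil lev P y V' →
              ∀ (K : Type u) [Field K] [CharZero K], mtGroup w V' K ⊆ mtGroup w V K) ∧
          ∀ ρ : (ℓ : ℕ) → [Fact ℓ.Prime] → GT →* GL d ℚ_[ℓ],
            (∀ (ℓ : ℕ) [Fact ℓ.Prime], Continuous (ρ ℓ)) →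
            ∃ (T : Set QB) (N : ℕ → ℕ),
              (∃ (Y : ℕ → ℕ → ℝ) (Y' : (k : Type) → [Field k] → [NumberField k] → ℕ → ℝ),
                FewC T (fun _ _ => 1 / 5) Y Y') ∧
              ∀ (ℓ : ℕ) [Fact ℓ.Prime] (x : QB), x ∉ T → (∃ e : QB →+* ℂ, (N ℓ : ℝ) ≤ ‖e x‖) →
              ∀ ρx : Stab x →* GL d ℚ_[ℓ], SpecializesAt (ρ ℓ) x ρx →
              ∀ (K : Type u) [Field K] [CharZero K] [Algebra ℚ_[ℓ] K],
                monodromy ρx K = monodromy (ρ ℓ) K ∧
                ∀ e : QB →+* ℂ, e x ∉ S →
                  ∀ (E : Matrix d d ℚ) (V : ℕ → Submodule ℂ (d → ℂ)),
                  FibreC F lev P w (e x) E V →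
                  (monodromy ρx K = mtGroup w V K ↔ monodromy (ρ ℓ) K = GenM (F.Mo P) w V K) ∧
                  ∀ R : ℝ, (B : ℝ) ^ c ≤ R → R < ‖e x‖ → FixedC F lev P w R →
                    ∀ y : ℂ, R < ‖y‖ → y ∉ S →
                    ∀ (E' : Matrix d d ℚ) (V' : ℕ → Submodule ℂ (d → ℂ)), FibreC F lev P w y E' V' →
                    (monodromy ρx K = mtGroup w V K ↔ monodromy (ρ ℓ) K = mtGroup w V' K) :=
  n1zA

end Pool.Agent.Results.MP_c1bb77_ag.HodgeGenericPoints
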