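import Pool.Agent.Helper88_PSV.AllZ

/-!
# The Mumford-Tate conjecture for one hundred percent of the points of the one parameter families whose
commutant is of type (0,0), uniformly in the family and over all number fields at once

A one parameter family `F : Family d` (`Pool/Agent/MT100D/Defs.lean`) is a linear differential system
over `ℚ(w)`, `z = 1/w`, with fundamental matrix `Y w = H(z) z ^ (N + δ)` near `w = ∞`, where the power
series in `H` and `K = H⁻¹` are of G-type, `N` is nilpotent and commutes with the rational diagonal matrix
`δ`.  THERE IS NO CONDITION AT INFINITY: by André, Chudnovsky and the theorem of local monodromy all the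
systems of the relative de Rham cohomology of families of algebraic varieties over an open part of the
affine line over `ℚ` are of this kind, also in a suitable basis adapted to the Hodge filtration.
Families over a curve over a number field are included: direct image under a finite map to the line.
`P` is the rational structure on the flat sections, `F.Mo P` the monodromy group, `F.per P x a` the vector
of the periods of the form with index `a` at the complex point `x` (principal branch of the logarithm).

* `Siz n B F.H F.K F.N F.δ F.q F.B` (`Pool/Agent/PSV/Defs.lean`): the rank and the degrees of the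
  coefficients of the system are at most `n`; the coefficients, the entries of `N`, the numerators and
  denominators of `δ` and the constants of the G-type of `H` and `H⁻¹` are at most `B`.
* `Pts m A` (`Pool/Agent/MTN/Defs.lean`): the algebraic numbers `x`, roots of nonzero integral
  polynomials of degree at most `m` with coefficients of absolute value at most `‖x‖ ^ A`.
* `FewC Y δ Z Z'` (`Pool/Agent/PSV/FewC.lean`): the set `Y` contains few algebraic numbers: for all `m`, `A`
  and `X ≥ 1`
  (seg) at most `Z m A X ^ (1 - δ m A)` of the numbers `x, x + 1, .., x + X - 1`, for every algebraic number `x`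
  of degree at most `m` and height at most `X ^ A`;
  (frc) for every number field `k` of degree `m` and every embedding at most
  `Z' k A X ^ (m + A (m + 1) - δ m A)` of the `≍ X ^ (m + A (m + 1))` fractions `a / b`, `a` in the ring of
  integers of `k`, `1 ≤ b ≤ X ^ A`, all whose conjugates have absolute value at most `X` (for `A = 0`: the
  elements of the ring of integers);
  (alg) at most `Z m 0 X ^ (m (m + 1) / 2 - δ m 0)` of the `≍ X ^ (m (m + 1) / 2)` algebraic integers of
  degree at most `m` all whose conjugates have absolute value at most `X`.
* `Uni (F.Mo P)`: the elements of the unipotent one parameter subgroups of the Zariski closure of the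
  monodromy group.  By Deligne they generate its identity component `Mon⁰` if the family is geometric
  and polarised.
* `Cmt (F.Mo P)`: the commutant of these unipotents; `Zt (F.Mo P)`: its centre.
* `TorusIn w V (F.Mo P)`: the Deligne torus of the fibre normalises these unipotents (true for all the
  fibres of a geometric family) and commutes with the commutant (the commutant is of type `(0,0)`; true
  if `Mon⁰` acts without multiplicities).
* `FirstKind E (F.Mo P)`: an element of the centre of the commutant which is an infinitesimal similitude
  of the polarisation `E` is a homothety.  This is so if all the isotypic components of `Mon⁰` are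
  self-dual, for instance if `Mon⁰` acts absolutely irreducibly.
* `GeoN (F.Mo P) E w V ρ` (`Pool/Agent/MT100E/Stmts.lean`): for an embedding of `ℚ_ℓ` in `ℂ`
  (1) the image of `ρ` normalises these unipotents;
  (2) the image of a subgroup of finite index commutes with the commutant (this follows from `TorusIn`
  for geometric families: weight zero, Hodge-Tate weights zero);
  (3) the Zariski closure of the image of every subgroup of finite index contains these unipotents
  (comparison theorem);
  (4) `F` is of the first kind for `E`, the image of `ρ` consists of similitudes of `E` and some
  determinant is not a root of unity (weights); or (`DetRel`) the determinants of the isotypic parts of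
  `ρ` and of the Deligne torus satisfy the same multiplicative relations (known if the centre of the
  commutant acts by algebraic cycles, for instance by automorphisms of the fibres: abelian `ℓ`-adic
  representations, Hodge-Tate weights; Serre, Faltings).
* `GmM (F.Mo P) K`: the `K`-points of the smallest algebraic group over `ℚ` which contains the
  homotheties and `Uni (F.Mo P)`.
* `FibreC F lev P w x E V`: `V` is a Hodge structure of weight `w` on the flat sections, polarised by the
  monodromy invariant form `E`, whose Hodge filtration is given by the periods at the complex point `x`.
* `SpecializesAt ρ x ρx` (`Pool/Agent/HIK/Defs.lean`): the representation `ρx` of the Galois group of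
  `ℚ(x)`, `x` an algebraic number, is the specialisation at `t = x` of the representation `ρ` of the
  Galois group of `ℚ(t)`.

Context.  Known: abelian varieties with large endomorphism or dimension conditions, K3 surfaces and other
families of abelian type (the Hodge classes are absolute, Deligne, André); for general families the
`ℓ`-adic side (Serre, Terasoma, Cadoret-Tamagawa, Hui: most points are Galois generic).  The Hodge side is
new: the points which are not Hodge generic form a countable union of algebraic subsets (Cattani,
Deligne, Kaplan), and this does not give a single Hodge generic algebraic point.  Examples covered: all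
one parameter families over an open part of the affine line over `ℚ` whose monodromy group is Zariski
dense in the symplectic group, or has closure containing the special orthogonal group, of the middle
cohomology (Lefschetz pencils of hypersurfaces and of complete intersections of any dimension `≥ 1` and
any degree, with dense monodromy by Beauville's theorem): for each `ℓ` the Mumford-Tate conjecture holds
for the vanishing part of the middle cohomology of one hundred percent of the members, over all number
fields.
-/

set_option autoImplicit false

namespace Pool.Agent.Results.MP_c1bb77_ag.MumfordTatePoints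

open Matrix Polynomial NumberField Pool.Agent.MT100 Pool.Agent.MT100G Pool.Agent.MT100A
  Pool.Agent.MT100D Pool.Agent.MT100E Pool.Agent.Helper78_MT Pool.Agent.MTL Pool.Agent.MTN
  Pool.Agent.HIK Pool.Agent.PSV Pool.Agent.PSV.H88

universe u

/-- Every family has a size `(n, B)`.  For every `n` there are `c`, `a m A`, `δ m A > 0` and constants
`Z m A`, `Z' k A` such that for every one parameter family `F` of size `(n, B)`, every weight `w ≥ 1`, all
levels `lev a` of the forms and every rational structure `P` for which the monodromy is integral there
is a set `S` of complex numbers such that:
(0) for all `m`, `A`, `K` and every `x ∈ Pts m A` with `‖x‖ ≥ (B (K + 1)) ^ a m A` at most `B ^ c` of the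
numbers `x, x - 1, ..., x - (K - 1)` are in `S`, and `FewC S δ (Z B ^ c) (Z' B ^ c)`;
(1) for every `x ∉ S` and every polarised Hodge structure `(V, E)` of weight `w`, `E` invariant under
the monodromy, whose Hodge filtration is given by the periods at `x`: if `F` is of the first kind for
`E` and the Deligne torus of `V` normalises the unipotents of the monodromy and commutes with their
commutant, the Mumford-Tate group of `V` is `GmM`;
(2) for all continuous representations `ρ ℓ` (`ℓ` prime) of the Galois group of `ℚ(t)` on the same space
with coefficients in `ℚ_ℓ` there are ONE set `T` of algebraic numbers, `FewC T (1/5)` (with some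
constants), and numbers `N ℓ` such that for every prime `ℓ`, every algebraic number `x ∉ T` which has a
conjugate of absolute value at least `N ℓ`, every specialisation `ρx` of `ρ ℓ` at `t = x` (a
representation of the Galois group of `ℚ(x)`), every embedding `e` of the algebraic closure of `ℚ` in `ℂ`
with `e x ∉ S` and every `(V, E)` as in (1) at the point `e x`: if the Deligne torus of `V` normalises the
unipotents of the monodromy and commutes with their commutant and `ρ ℓ` is of geometric type, the
identity component of the Zariski closure of the image of `ρx` is the Mumford-Tate group of `V`. -/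
theorem result :
    (∀ (d : Type) [Fintype d] [DecidableEq d] (F : Family d), ∃ n B : ℕ,
      Siz n B F.H F.K F.N F.δ F.q F.B) ∧
    ∀ n : ℕ, ∃ (c : ℕ) (a : ℕ → ℕ → ℕ) (δ Z : ℕ → ℕ → ℝ)
      (Z' : (k : Type) → [Field k] → [NumberField k] → ℕ → ℝ), (∀ m A, 0 < δ m A) ∧
      ∀ (d : Type) [Fintype d] [DecidableEq d] (F : Family d) (B : ℕ),
      Siz n B F.H F.K F.N F.δ F.q F.B →
      ∀ (w : ℕ) (lev : d → ℕ), 1 ≤ w → ∀ P : Matrix d d ℂ, IsUnit P.det → F.IntM P →
        ∃ S : Set ℂ,
          (∀ (m A K : ℕ), ∀ x ∈ Pts m A, ((B * (K + 1) : ℕ) : ℝ) ^ a m A ≤ ‖x‖ →
            Nat.card {κ : ℕ // κ < K ∧ x - κ ∈ S} ≤ B ^ c) ∧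
          FewC S δ (fun m A => Z m A * (B : ℝ) ^ c) (fun k _ _ A => Z' k A * (B : ℝ) ^ c) ∧
          (∀ x : ℂ, x ∉ S → ∀ (E : Matrix d d ℚ) (V : ℕ → Submodule ℂ (d → ℂ)),
            FibreC F lev P w x E V → FirstKind E (F.Mo P) → TorusIn w V (F.Mo P) →
            ∀ (K : Type u) [Field K] [CharZero K], mtGroup w V K = GmM (F.Mo P) K) ∧
          ∀ ρ : (ℓ : ℕ) → [Fact ℓ.Prime] → GT →* GL d ℚ_[ℓ],
            (∀ (ℓ : ℕ) [Fact ℓ.Prime], Continuous (ρ ℓ)) →
            ∃ (T : Set QB) (N : ℕ → ℕ),
              (∃ (Y : ℕ → ℕ → ℝ) (Y' : (k : Type) → [Field k] → [NumberField k] → ℕ → ℝ),
                FewC T (fun _ _ => 1 / 5) Y Y') ∧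
              ∀ (ℓ : ℕ) [Fact ℓ.Prime] (x : QB), x ∉ T → (∃ e : QB →+* ℂ, (N ℓ : ℝ) ≤ ‖e x‖) →
              ∀ ρx : Stab x →* GL d ℚ_[ℓ], SpecializesAt (ρ ℓ) x ρx →
              ∀ e : QB →+* ℂ, e x ∉ S → ∀ (E : Matrix d d ℚ) (V : ℕ → Submodule ℂ (d → ℂ)),
              FibreC F lev P w (e x) E V → TorusIn w V (F.Mo P) → GeoN (F.Mo P) E w V (ρ ℓ) →
              ∀ (K : Type u) [Field K] [CharZero K] [Algebra ℚ_[ℓ] K],
                monodromy ρx K = mtGroup w V K :=
  n4zA

end Pool.Agent.Results.MP_c1bb77_ag.MumfordTatePoints
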