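import Pool.Agent.Helper39_MTP.AllV

/-!
# One fibre decides the Mumford-Tate conjecture for one hundred percent of the fibres, over all number
fields

**The base.**  Let `S` be a curve over a number field with function field `L`, `t : S → ℙ¹` a nonconstant
function, so that `L` is a finite extension of `ℚ(t)`; the Galois group `S.G` of `L` is an open subgroup
`S.H` of the Galois group `GT` of `ℚ(t)` (`Curve`).  For an open part `S` of the affine line over `ℚ` the
type `e` is empty and `S.H = ⊤`.

**The Hodge side.**  Let `X → S` be smooth and projective over an open part of `S` and `𝓥` the local
system of the cohomology of degree `w` of the fibres (or a direct summand of it).  Its direct image under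
`t` is a local system on an open part of the line; the system of its periods is a one parameter family
`F : Family (d ⊕ e)` (`Pool/Agent/MT100D/Defs.lean`): a linear differential system over `ℚ(w)`, `z = 1/w`,
with fundamental matrix `Y w = H(z) z ^ (N + δ)` near `w = ∞`, where the power series in `H` and `H⁻¹` are
of G-type, `N` is nilpotent and commutes with the rational diagonal matrix `δ` (André, Chudnovsky, Katz).
Row `a` of `Y w` is the form with index `a` in the basis of flat sections, `lev a` its Hodge level.  The
rational structure on the flat sections is given by any `P ∈ GL_r(ℂ)` for which the monodromy group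
`F.Mo P` is integral (`F.IntM P`).  Near `w = ∞` (principal branch) the direct image is the direct sum of
the fibres of `𝓥` at the points of `S(ℂ)` above `w` (for all the complex embeddings of the field of
constants); the coordinates in `d` are those of the fibre at ONE of these points, the coordinates in `e`
those at the other ones.  All the points above `w` are obtained by renumbering the coordinates.  There is
no condition on the monodromy group, on the Hodge numbers, on the weight, on the behaviour at infinity.

* `Uni (F.Mo P)`: the elements of the unipotent one parameter subgroups of the Zariski closure of the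
  monodromy group.  They are in its identity component, so they respect the decomposition (`BlkD`);
  `Fst (Uni (F.Mo P))` are their restrictions to `𝓥`.  By Deligne they generate the identity component
  of the algebraic monodromy group of `𝓥`.
* `FibX F lev P w x W`: `W` is the Hodge structure of the fibre of `𝓥` at the chosen point above `x`,
  `|x|` large: it is a direct summand (`Sum1`) of a Hodge structure polarised by a monodromy invariant
  form whose Hodge filtration is given by the periods at `x`.
* `FibY F lev P w y W₀`: the same at ANY regular point `y` (`y ≠ 0` and the denominator `F.q` of the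
  system does not vanish at `1/y`; points with a bad reduction of the family are zeros of it) for ANY
  branch of the fundamental matrix (analytic continuation along a chain of discs), that is, at any point
  of the same component of `S(ℂ)` above `y`.
* `FixedPartB F lev P w`: a rational tensor which is invariant under `Uni (F.Mo P)` and is a Hodge tensor
  for one branch at one regular point is so for all branches at all regular points.  This is the theorem
  of the fixed part (Griffiths, Deligne, Schmid), true for all families of algebraic varieties.
* `mtGroup w W K`: the `K`-points of the Mumford-Tate group of `W`.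

**The ℓ-adic side.**  `ρ ℓ` is a continuous representation of `S.G` over `ℚ_ℓ`, on the same space (the
étale cohomology of the geometric generic fibre).  The points of `S` over algebraic points of the line are
given by the places `π : BB → ℚ̄` (`Place`; `BB` is the integral closure of `ℚ[t]` in the algebraic
closure `Om` of `ℚ(t)`), `π.t` is the value of `t`, and `S.R π` is the Galois group of the residue field
of the point, the group of the `τ` with `π σ = τ π` on `BB` for some `σ` in `S.G`; `S.Spec (ρ ℓ) π ρa`:
`ρa` is the specialisation of `ρ ℓ` at this point (`ρa τ = ρ ℓ σ` if `π σ = τ π` on `BB`): the étale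
cohomology of the fibre at the point.

* `monodromy ρ K`: the `K`-points of the identity component of the Zariski closure of the image.
* `S.Geo U ι (ρ ℓ)`: (1) for every subgroup of finite index of the geometric Galois group `S.geo`
  the Zariski closure of its image contains `U`; (2) a subgroup of finite index of it has image in the
  algebraic group over `ℚ` generated by `U`.  For families of algebraic varieties and
  `U = Fst (Uni (F.Mo P))` this is the comparison theorem together with the semisimplicity theorem of
  Deligne, and true for all `ℓ` and `ι`.
* `GenU U w W₀ K`, `GenR U ι ρ₀ K`: the `K`-points of the smallest algebraic subgroup over `ℚ` (over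
  `ℚ_ℓ`) of `GL` which contains `U` and the Deligne torus of `W₀` (and `monodromy ρ₀`).

**Counting.**  `Ap E m B`: the algebraic numbers of degree at most `m` and height at most `B` (zeros of a
nonzero integral polynomial of degree at most `m` with coefficients of absolute value at most `B`).
`FewC S δ Z Z'` (`Pool/Agent/PSV/FewC.lean`): the set `S` contains few algebraic numbers, for all `m`, `A`
and `X ≥ 1`: at most `Z m A X ^ (1 - δ m A)` of the numbers `x, x + 1, .., x + X - 1`, for every `x` in
`Ap E m (X ^ A)`; for every number field `k` of degree `m` and every embedding at most
`Z' k A X ^ (m + A (m + 1) - δ m A)` of the `≍ X ^ (m + A (m + 1))` fractions `a / b`, `a ∈ 𝓞 k`,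
`1 ≤ b ≤ X ^ A`, all whose conjugates have absolute value at most `X` (`A = 0`: the elements of `𝓞 k`); at
most `Z m 0 X ^ (m (m + 1) / 2 - δ m 0)` of the `≍ X ^ (m (m + 1) / 2)` algebraic integers of degree at
most `m` all whose conjugates have absolute value at most `X`.

**Reading.**  For every `ℓ`: if the Mumford-Tate conjecture holds for the fibre of `𝓥` at ONE closed
point of `S` (a CM point, a special point, any point where it is known), it holds for the fibres at all
points above one hundred percent of ALL the algebraic integers of degree at most `m`, for every `m`, and
above one hundred percent of the ring of integers of every number field, with power saving.  In other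
words it holds for one hundred percent of the integral fibres, or it fails for every fibre.  The
exceptional set `T` is one set for all number fields and all the primes `ℓ`, up to the numbers which are
zeros of integral polynomials with coefficients at most `N ℓ` (finitely many of each degree), and for all
the fibres used.

**Context.**  Galois side: by Hilbert's irreducibility theorem (Serre, Terasoma; Cadoret-Tamagawa, Hui)
most points of a family are Galois generic.  Hodge side: by Cattani, Deligne and Kaplan the points which
are not Hodge generic form a COUNTABLE union of algebraic subsets; as the algebraic points are countable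
as well, this does not give a single Hodge generic algebraic point.  A Galois generic point is generic
for motivated cycles (André), hence Hodge generic where all the Hodge classes are known to be motivated
or absolute, and there are theorems for divisor classes (Terasoma, Maulik-Poonen) and for few points of
special families by G-functions (André).  For a general family we know of no earlier proof that there is
even ONE Hodge generic algebraic point; (1) and (2) give one hundred percent of them.  The reduction to one
fibre is known at the generic point of the family (André, Moonen); here it is proved for closed points,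
for the Hodge group and for the ℓ-adic group at the same time.
-/

set_option autoImplicit false

namespace Pool.Agent.Results.MP_c1bb77_ag.OneFibreDecides

open Matrix Polynomial NumberField Pool.Agent.MT100 Pool.Agent.MT100G Pool.Agent.MT100A
  Pool.Agent.MT100D Pool.Agent.Helper78_MT Pool.Agent.MTL Pool.Agent.MTN Pool.Agent.MTPN
  Pool.Agent.PSV Pool.Agent.HUK

universe u

/-- Let `F` be a one parameter family, `w ≥ 1` a weight and `lev a` the Hodge level of the form with
index `a`.  There are a constant `C`, exponents `α m A`, `δ m A > 0` and constants `Z m A`, `Z' k A` such
that for every rational structure `P` with integral monodromy, for which the theorem of the fixed part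
holds and the unipotent one parameter subgroups of the closure of the monodromy group respect the
decomposition, there is a set `Ex` of complex numbers with the following properties.
(1) `Ex` contains at most `C` of the points `x, x - 1, ..., x - K + 1` if `x` is algebraic of degree at
most `m` and height at most `|x| ^ A` and `|x| ≥ (C (K + 1)) ^ α m A`; and `FewC Ex δ Z Z'`.
(2) For every `x ∉ Ex` the Mumford-Tate group of the fibre `W` at `x` is the algebraic group over `ℚ`
generated by the unipotents and the Mumford-Tate group of the fibre `W₀` at any regular point `y`, for
any branch (special fibres and CM fibres included).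
(3) For all curves `S` and all continuous `ρ ℓ` there are a set `T` of algebraic numbers, which contains
few algebraic numbers with the exponent `1 / 5`, and numbers `N ℓ` such that for every prime `ℓ`, if the
geometric Galois group is compatible with the unipotents (`S.Geo`), for every place `π₀` and every
specialisation `ρ₀` at `π₀`, for every place `π` with `π.t ∉ T`, `π.t` not a zero of a nonzero integral
polynomial with coefficients of absolute value at most `N ℓ`, and every specialisation `ρa` at `π`:
(3a) the connected algebraic monodromy group of `ρa` is the algebraic group over `ℚ_ℓ` generated by the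
unipotents and the connected algebraic monodromy group of `ρ₀`;
(3b) if the connected algebraic monodromy group of `ρ₀` is the Mumford-Tate group of the fibre `W₀` at
`π₀`, for some embedding `ε₀` of `ℚ̄` and some branch, then the connected algebraic monodromy group of
`ρa` is the Mumford-Tate group of the fibre `W` at `ε π.t`, for every embedding `ε` with `ε π.t ∉ Ex`. -/
theorem result (d e : Type) [Fintype d] [DecidableEq d] [Fintype e] [DecidableEq e]
    (F : Family (d ⊕ e)) (w : ℕ) (lev : d ⊕ e → ℕ) (hw : 1 ≤ w) :
    ∃ (C : ℕ) (α : ℕ → ℕ → ℕ) (δ Z : ℕ → ℕ → ℝ)
      (Z' : (k : Type) → [Field k] → [NumberField k] → ℕ → ℝ), (∀ m A, 0 < δ m A) ∧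
    ∀ P : Matrix (d ⊕ e) (d ⊕ e) ℂ, IsUnit P.det → F.IntM P →
      FixedPartB F lev P w → BlkD (Uni (F.Mo P)) →
      ∃ Ex : Set ℂ,
        (∀ (m A K : ℕ), ∀ x ∈ Pts m A, ((C : ℝ) * (K + 1)) ^ α m A ≤ ‖x‖ →
          Nat.card {κ : ℕ // κ < K ∧ x - κ ∈ Ex} ≤ C) ∧
        FewC Ex δ Z Z' ∧
        (∀ x : ℂ, x ∉ Ex → ∀ W : ℕ → Submodule ℂ (d → ℂ), FibX F lev P w x W →
          ∀ (y : ℂ) (W₀ : ℕ → Submodule ℂ (d → ℂ)), FibY F lev P w y W₀ →
          ∀ (K : Type u) [Field K] [CharZero K],
            mtGroup w W K = GenU (Fst (Uni (F.Mo P))) w W₀ K) ∧
        ∀ (S : Curve) (ρ : (ℓ : ℕ) → [Fact ℓ.Prime] → S.G →* GL d ℚ_[ℓ]),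
          (∀ (ℓ : ℕ) [Fact ℓ.Prime], Continuous (ρ ℓ)) →
          ∃ (T : Set (AlgebraicClosure ℚ)) (N : ℕ → ℕ) (Y : ℕ → ℕ → ℝ)
            (Y' : (k : Type) → [Field k] → [NumberField k] → ℕ → ℝ),
            FewC T (fun _ _ => 1 / 5) Y Y' ∧
            ∀ (ℓ : ℕ) [Fact ℓ.Prime] (ι : ℚ_[ℓ] →+* ℂ), S.Geo (Fst (Uni (F.Mo P))) ι (ρ ℓ) →
            ∀ (π₀ : Place) (ρ₀ : S.R π₀ →* GL d ℚ_[ℓ]), S.Spec (ρ ℓ) π₀ ρ₀ →
            ∀ π : Place, π.t ∉ T → (∀ m : ℕ, π.t ∉ Ap (AlgebraicClosure ℚ) m (N ℓ)) →
            ∀ ρa : S.R π →* GL d ℚ_[ℓ], S.Spec (ρ ℓ) π ρa →
              (∀ (K : Type u) [Field K] [CharZero K] [Algebra ℚ_[ℓ] K],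
                monodromy ρa K = GenR (Fst (Uni (F.Mo P))) ι ρ₀ K) ∧
              ∀ (ε₀ : AlgebraicClosure ℚ →+* ℂ) (W₀ : ℕ → Submodule ℂ (d → ℂ)),
                FibY F lev P w (ε₀ π₀.t) W₀ →
                (∀ (K : Type) [Field K] [CharZero K] [Algebra ℚ_[ℓ] K],
                  monodromy ρ₀ K = mtGroup w W₀ K) →
                ∀ ε : AlgebraicClosure ℚ →+* ℂ, ε π.t ∉ Ex →
                ∀ W : ℕ → Submodule ℂ (d → ℂ), FibX F lev P w (ε π.t) W →
                  ∀ (K : Type u) [Field K] [CharZero K] [Algebra ℚ_[ℓ] K],
                    monodromy ρa K = mtGroup w W K :=
  H39.propVA.{u} d e F w lev hw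

end Pool.Agent.Results.MP_c1bb77_ag.OneFibreDecides
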